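import Mathlib

/-! # Squad HEC (MP_3faef8_co): exact counts.  Alternating closed trails. -/

set_option autoImplicit false

namespace Pool.Agent.HEC.H42

open Finset

variable {V : Type} [Fintype V] [DecidableEq V]

/-- the boundary -/
def Bd (y : Sym2 V → ℤ) (v : V) : ℤ := ∑ e ∈ univ.filter (fun e => v ∈ e), y e

/-- an edge set contains a signed set of `D` edges with boundary zero -/
def Alt (F : Finset (Sym2 V)) (D : ℕ) : Prop :=
  ∃ y : Sym2 V → ℤ, (∀ e, y e = -1 ∨ y e = 0 ∨ y e = 1) ∧ (∀ e, e ∉ F → y e = 0) ∧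
    (∀ v, Bd y v = 0) ∧ (univ.filter (fun e => y e ≠ 0)).card = D

theorem Alt.mono {F F' : Finset (Sym2 V)} {D : ℕ} (h : F ⊆ F') (hF : Alt F D) : Alt F' D := by
  obtain ⟨y, h1, h2, h3, h4⟩ := hF
  exact ⟨y, h1, fun e he => h2 e (fun h' => he (h h')), h3, h4⟩

theorem Alt.zero (F : Finset (Sym2 V)) : Alt F 0 := by
  refine ⟨fun _ => 0, fun _ => Or.inr (Or.inl rfl), fun _ _ => rfl, fun v => ?_, ?_⟩
  · simp [Bd]
  · simp

theorem Bd_add (y z : Sym2 V → ℤ) (v : V) : Bd (fun e => y e + z e) v = Bd y v + Bd z v := by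
  unfold Bd
  rw [Finset.sum_add_distrib]

theorem Bd_sub (y z : Sym2 V → ℤ) (v : V) : Bd (fun e => y e - z e) v = Bd y v - Bd z v := by
  unfold Bd
  rw [Finset.sum_sub_distrib]

/-- two functions with disjoint supports -/
theorem alt_of_disj (F F' : Finset (Sym2 V)) (hd : Disjoint F F') (y z : Sym2 V → ℤ)
    (hy : ∀ e, y e = -1 ∨ y e = 0 ∨ y e = 1) (hz : ∀ e, z e = -1 ∨ z e = 0 ∨ z e = 1)
    (hyF : ∀ e, e ∉ F → y e = 0) (hzF : ∀ e, e ∉ F' → z e = 0) :
    (∀ e, y e + z e = -1 ∨ y e + z e = 0 ∨ y e + z e = 1) ∧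
    (univ.filter (fun e => y e + z e ≠ 0)).card =
      (univ.filter (fun e => y e ≠ 0)).card + (univ.filter (fun e => z e ≠ 0)).card := by
  have key : ∀ e, y e = 0 ∨ z e = 0 := by
    intro e
    by_cases he : e ∈ F
    · exact Or.inr (hzF e (Finset.disjoint_left.mp hd he))
    · exact Or.inl (hyF e he)
  refine ⟨fun e => ?_, ?_⟩
  · rcases key e with h | h
    · rw [h, zero_add]; exact hz e
    · rw [h, add_zero]; exact hy e
  · rw [← Finset.card_union_of_disjoint]
    · congr 1
      ext e
      simp only [mem_filter, mem_univ, true_and, mem_union]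
      rcases key e with h | h
      · rw [h, zero_add]; simp
      · rw [h, add_zero]; simp
    · rw [Finset.disjoint_left]
      intro e he he'
      simp only [mem_filter, mem_univ, true_and] at he he'
      rcases key e with h | h
      · exact he h
      · exact he' h

theorem Alt.union {F F' : Finset (Sym2 V)} {D D' : ℕ} (hd : Disjoint F F') (h : Alt F D)
    (h' : Alt F' D') : Alt (F ∪ F') (D + D') := by
  obtain ⟨y, h1, h2, h3, h4⟩ := h
  obtain ⟨z, k1, k2, k3, k4⟩ := h'
  obtain ⟨a1, a2⟩ := alt_of_disj F F' hd y z h1 k1 h2 k2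
  refine ⟨fun e => y e + z e, a1, fun e he => ?_, fun v => ?_, ?_⟩
  · rw [mem_union, not_or] at he
    change y e + z e = 0
    rw [h2 e he.1, k2 e he.2, add_zero]
  · rw [Bd_add, h3, k3, add_zero]
  · rw [a2, h4, k4]

theorem Alt.tight {F : Finset (Sym2 V)} {D : ℕ} (h : Alt F D) :
    ∃ F₀ ⊆ F, F₀.card = D ∧ Alt F₀ D := by
  obtain ⟨y, h1, h2, h3, h4⟩ := h
  refine ⟨univ.filter (fun e => y e ≠ 0), ?_, h4, y, h1, ?_, h3, h4⟩
  · intro e he
    simp only [mem_filter, mem_univ, true_and] at he
    by_contra hc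
    exact he (h2 e hc)
  · intro e he
    simp only [mem_filter, mem_univ, true_and, not_not] at he
    exact he

/-! ### Walks in a bipartite graph -/

section walk

variable {G : SimpleGraph V} (χ : V → Bool)

/-- the sign of a vertex -/
def sg (v : V) : ℤ := if χ v then 1 else -1

/-- the signed edges of a walk -/
def yw {u v : V} (w : G.Walk u v) (e : Sym2 V) : ℤ :=
  (w.darts.map (fun d => if d.edge = e then sg χ d.fst else 0)).sum

omit [Fintype V] in
theorem yw_nil {u : V} (e : Sym2 V) : yw χ (SimpleGraph.Walk.nil : G.Walk u u) e = 0 := by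
  simp [yw]

omit [Fintype V] in
theorem yw_cons {u v w : V} (h : G.Adj u v) (p : G.Walk v w) (e : Sym2 V) :
    yw χ (SimpleGraph.Walk.cons h p) e = (if s(u, v) = e then sg χ u else 0) + yw χ p e := by
  simp [yw, SimpleGraph.Dart.edge_mk]

theorem Bd_single (u v : V) (c : ℤ) (x : V) :
    Bd (fun e => if s(u, v) = e then c else 0) x = if x = u ∨ x = v then c else 0 := by
  unfold Bd
  rw [Finset.sum_ite_eq]
  simp only [mem_filter, mem_univ, true_and, Sym2.mem_iff]

/-- `G` is bipartite with colouring `χ` -/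
def Bip (G : SimpleGraph V) (χ : V → Bool) : Prop := ∀ a b, G.Adj a b → χ a ≠ χ b

theorem Bd_yw (hG : Bip G χ) {u v : V} (w : G.Walk u v) (x : V) :
    Bd (yw χ w) x = sg χ x * ((if x = u then 1 else 0) - (if x = v then 1 else 0)) := by
  induction w with
  | @nil u =>
    have : Bd (yw χ (SimpleGraph.Walk.nil : G.Walk u u)) x = 0 := by
      unfold Bd
      apply Finset.sum_eq_zero
      intro e _
      exact yw_nil χ e
    rw [this, sub_self, mul_zero]
  | @cons u v w h p ih =>
    have h1 : (yw χ (SimpleGraph.Walk.cons h p)) =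
        fun e => (if s(u, v) = e then sg χ u else 0) + yw χ p e := by
      funext e
      exact yw_cons χ h p e
    rw [h1, Bd_add, ih, Bd_single u v]
    have hχ := hG u v h
    have hne := h.ne
    have hs : sg χ u = - sg χ v := by
      unfold sg
      cases hu : χ u <;> cases hv : χ v <;> simp_all
    by_cases hxu : x = u
    · subst hxu
      rw [if_pos (Or.inl rfl), if_pos rfl, if_neg hne]
      ring
    · by_cases hxv : x = v
      · subst hxv
        rw [if_pos (Or.inr rfl), if_neg hxu, if_pos rfl, hs]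
        ring
      · rw [if_neg (by tauto), if_neg hxu, if_neg hxv]
        ring

omit [Fintype V] in
theorem yw_not_mem {u v : V} (w : G.Walk u v) (e : Sym2 V) (he : e ∉ w.edges) :
    yw χ w e = 0 := by
  induction w with
  | nil => exact yw_nil χ e
  | @cons u v w h p ih =>
    rw [SimpleGraph.Walk.edges_cons, List.mem_cons, not_or] at he
    rw [yw_cons, if_neg (fun h' => he.1 h'.symm), ih he.2, add_zero]

omit [Fintype V] in
theorem yw_mem {u v : V} (w : G.Walk u v) (hw : w.IsTrail) (e : Sym2 V) (he : e ∈ w.edges) :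
    yw χ w e = -1 ∨ yw χ w e = 1 := by
  induction w with
  | nil => simp at he
  | @cons u v w h p ih =>
    rw [SimpleGraph.Walk.isTrail_cons] at hw
    rw [SimpleGraph.Walk.edges_cons, List.mem_cons] at he
    rw [yw_cons]
    by_cases h1 : s(u, v) = e
    · rw [if_pos h1, yw_not_mem χ p e (h1 ▸ hw.2), add_zero]
      unfold sg
      split_ifs <;> simp
    · rw [if_neg h1, zero_add]
      exact ih hw.1 (he.resolve_left (fun h' => h1 h'.symm))

omit [Fintype V] in
theorem yw_range {u v : V} (w : G.Walk u v) (hw : w.IsTrail) (e : Sym2 V) :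
    yw χ w e = -1 ∨ yw χ w e = 0 ∨ yw χ w e = 1 := by
  by_cases he : e ∈ w.edges
  · rcases yw_mem χ w hw e he with h | h
    · exact Or.inl h
    · exact Or.inr (Or.inr h)
  · exact Or.inr (Or.inl (yw_not_mem χ w e he))

theorem yw_supp {u v : V} (w : G.Walk u v) (hw : w.IsTrail) :
    (univ.filter (fun e => yw χ w e ≠ 0)).card = w.length := by
  have : univ.filter (fun e => yw χ w e ≠ 0) = w.edges.toFinset := by
    ext e
    simp only [mem_filter, mem_univ, true_and, List.mem_toFinset]
    constructor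
    · intro h
      by_contra hc
      exact h (yw_not_mem χ w e hc)
    · intro h
      rcases yw_mem χ w hw e h with h' | h' <;> rw [h'] <;> decide
  rw [this, List.toFinset_card_of_nodup hw.edges_nodup, SimpleGraph.Walk.length_edges]

/-- two edge-disjoint trails with the same ends -/
theorem alt_two {G G' : SimpleGraph V} (hG : Bip G χ) (hG' : Bip G' χ) {u v : V}
    (w : G.Walk u v) (w' : G'.Walk u v) (hw : w.IsTrail) (hw' : w'.IsTrail)
    (hd : ∀ e ∈ w.edges, e ∉ w'.edges) :
    Alt (w.edges.toFinset ∪ w'.edges.toFinset) (w.length + w'.length) := by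
  have hdis : Disjoint w.edges.toFinset w'.edges.toFinset := by
    rw [Finset.disjoint_left]
    intro e he he'
    exact hd e (List.mem_toFinset.mp he) (List.mem_toFinset.mp he')
  have hz : ∀ e, -yw χ w' e = -1 ∨ -yw χ w' e = 0 ∨ -yw χ w' e = 1 := by
    intro e
    rcases yw_range χ w' hw' e with h | h | h <;> rw [h] <;> simp
  obtain ⟨a1, a2⟩ := alt_of_disj _ _ hdis (yw χ w) (fun e => -yw χ w' e) (yw_range χ w hw) hz
    (fun e he => yw_not_mem χ w e (fun h => he (List.mem_toFinset.mpr h)))
    (fun e he => by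
      rw [yw_not_mem χ w' e (fun h => he (List.mem_toFinset.mpr h)), neg_zero])
  refine ⟨fun e => yw χ w e + -yw χ w' e, a1, fun e he => ?_, fun x => ?_, ?_⟩
  · rw [mem_union, not_or, List.mem_toFinset, List.mem_toFinset] at he
    change yw χ w e + -yw χ w' e = 0
    rw [yw_not_mem χ w e he.1, yw_not_mem χ w' e he.2, neg_zero, add_zero]
  · have : (fun e => yw χ w e + -yw χ w' e) = fun e => yw χ w e - yw χ w' e := by
      funext e
      ring
    rw [this, Bd_sub, Bd_yw χ hG w x, Bd_yw χ hG' w' x, sub_self]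
  · rw [a2, yw_supp χ w hw]
    have : (univ.filter (fun e => -yw χ w' e ≠ 0)) = univ.filter (fun e => yw χ w' e ≠ 0) := by
      ext e
      rw [mem_filter, mem_filter, neg_ne_zero]
    rw [this, yw_supp χ w' hw']

omit [Fintype V] [DecidableEq V] in
theorem odd_length (hG : Bip G χ) {u v : V} (w : G.Walk u v) :
    (Odd w.length ↔ χ u ≠ χ v) := by
  induction w with
  | nil => simp
  | @cons u v w h p ih =>
    have hχ := hG u v h
    rw [SimpleGraph.Walk.length_cons, Nat.odd_add_one, ih]
    cases hu : χ u <;> cases hv : χ v <;> cases hw : χ w <;> simp_all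

end walk

/-- The counting theorem in this language (proved in `Exa.lean`). -/
def AltExa : Prop := ∀ (V : Type) [Fintype V] [DecidableEq V] (F : Finset (Sym2 V)) (U : Finset V)
  (D : ℕ), (∀ e ∈ F, ∀ x ∈ e, x ∈ U) → (∀ e ∈ F, ¬ e.IsDiag) → Even D →
  8 * (Nat.log 2 U.card + 1) ^ 2 ≤ D →
  40 * U.card + D + 8 * (Nat.log 2 U.card + 1) ^ 4 + 8 * (Nat.log 2 U.card + 1) ^ 2 < F.card →
  Alt F D

end Pool.Agent.HEC.H42
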