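import Pool.Agent.Helper42_HEC.Alt

/-! # Squad HEC (MP_3faef8_co): exact counts.  A ball with many edges and a short tree. -/

set_option autoImplicit false

namespace Pool.Agent.HEC.H42

open Finset

variable {V : Type} [Fintype V] [DecidableEq V]

open scoped Classical in
/-- edges inside a set of vertices -/
noncomputable def ins (F : Finset (Sym2 V)) (W : Finset V) : Finset (Sym2 V) :=
  F.filter (fun e => ∀ x ∈ e, x ∈ W)

theorem mem_ins {F : Finset (Sym2 V)} {W : Finset V} {e : Sym2 V} :
    e ∈ ins F W ↔ e ∈ F ∧ ∀ x ∈ e, x ∈ W := by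
  simp [ins]

theorem ins_subset (F : Finset (Sym2 V)) (W : Finset V) : ins F W ⊆ F :=
  fun _ he => (mem_ins.mp he).1

omit [Fintype V] in
theorem card_mem_le_two (B : Finset V) (e : Sym2 V) : (B.filter (fun v => v ∈ e)).card ≤ 2 := by
  induction e using Sym2.ind with
  | _ a b =>
    calc (B.filter (fun v => v ∈ s(a, b))).card ≤ ({a, b} : Finset V).card := by
          apply Finset.card_le_card
          intro v hv
          rw [mem_filter, Sym2.mem_iff] at hv
          rw [mem_insert, mem_singleton]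
          exact hv.2
      _ ≤ 2 := Finset.card_le_two

/-- a subset with large minimal degree -/
theorem min_deg (F : Finset (Sym2 V)) (W : Finset V) (C : ℕ) (h : C * W.card < (ins F W).card) :
    ∃ U ⊆ W, C * U.card < (ins F U).card ∧
      ∀ v ∈ U, C < ((ins F U).filter (fun e => v ∈ e)).card := by
  classical
  have hne : (W.powerset.filter (fun U => C * U.card < (ins F U).card)).Nonempty :=
    ⟨W, by simp [h]⟩
  obtain ⟨U, hU, hmin⟩ := Finset.exists_min_image _ Finset.card hne
  rw [mem_filter, mem_powerset] at hU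
  refine ⟨U, hU.1, hU.2, fun v hv => ?_⟩
  by_contra hc
  push Not at hc
  have h1 : ins F (U.erase v) = (ins F U).filter (fun e => ¬ v ∈ e) := by
    ext e
    rw [mem_filter, mem_ins, mem_ins]
    constructor
    · rintro ⟨h1, h2⟩
      exact ⟨⟨h1, fun x hx => Finset.mem_of_mem_erase (h2 x hx)⟩,
        fun hve => Finset.notMem_erase v U (h2 v hve)⟩
    · rintro ⟨⟨h1, h2⟩, h3⟩
      refine ⟨h1, fun x hx => Finset.mem_erase.mpr ⟨?_, h2 x hx⟩⟩
      rintro rfl
      exact h3 hx
  have h2 := Finset.card_filter_add_card_filter_not (s := ins F U) (fun e => v ∈ e)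
  have h3 : (U.erase v).card + 1 = U.card := Finset.card_erase_add_one hv
  have h4 : C * (U.erase v).card < (ins F (U.erase v)).card := by
    rw [h1]
    have : C * U.card = C * (U.erase v).card + C := by rw [← h3]; ring
    omega
  have h5 := hmin (U.erase v) (by
    rw [mem_filter, mem_powerset]
    exact ⟨(Finset.erase_subset _ _).trans hU.1, h4⟩)
  omega

/-- the ball of radius `i` around `r` -/
def ball (F : Finset (Sym2 V)) (r : V) : ℕ → Finset V
  | 0 => {r}
  | i + 1 => univ.filter (fun x => x ∈ ball F r i ∨ ∃ y ∈ ball F r i, s(y, x) ∈ F)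

theorem mem_ball_succ {F : Finset (Sym2 V)} {r x : V} {i : ℕ} :
    x ∈ ball F r (i + 1) ↔ x ∈ ball F r i ∨ ∃ y ∈ ball F r i, s(y, x) ∈ F := by
  simp [ball]

theorem ball_mono (F : Finset (Sym2 V)) (r : V) (i : ℕ) : ball F r i ⊆ ball F r (i + 1) :=
  fun _ hx => mem_ball_succ.mpr (Or.inl hx)

theorem self_mem_ball (F : Finset (Sym2 V)) (r : V) (i : ℕ) : r ∈ ball F r i := by
  induction i with
  | zero => simp [ball]
  | succ i ih => exact ball_mono F r i ih

theorem ball_subset (F : Finset (Sym2 V)) (r : V) (W : Finset V) (hr : r ∈ W)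
    (hF : ∀ e ∈ F, ∀ x ∈ e, x ∈ W) (i : ℕ) : ball F r i ⊆ W := by
  induction i with
  | zero =>
    intro x hx
    simp only [ball, mem_singleton] at hx
    rw [hx]; exact hr
  | succ i ih =>
    intro x hx
    rcases mem_ball_succ.mp hx with h | ⟨y, _, h2⟩
    · exact ih h
    · exact hF _ h2 x (Sym2.mem_mk_right y x)

theorem tree (F : Finset (Sym2 V)) (r : V) (i : ℕ) :
    ∃ T ⊆ ins F (ball F r i), T.card ≤ (ball F r i).card ∧
      ∀ x ∈ ball F r i, ∃ p : (SimpleGraph.fromEdgeSet (T : Set (Sym2 V))).Walk r x,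
        p.length ≤ i := by
  classical
  induction i with
  | zero =>
    refine ⟨∅, Finset.empty_subset _, by simp, fun x hx => ?_⟩
    simp only [ball, mem_singleton] at hx
    subst hx
    exact ⟨SimpleGraph.Walk.nil, le_rfl⟩
  | succ i ih =>
    obtain ⟨T, hT, hc, hw⟩ := ih
    set N := (ball F r (i + 1)) \ (ball F r i) with hN
    have hpar : ∀ x ∈ N, ∃ y ∈ ball F r i, s(y, x) ∈ F := by
      intro x hx
      rw [hN, mem_sdiff] at hx
      exact (mem_ball_succ.mp hx.1).resolve_left hx.2
    choose! par hp1 hp2 using hpar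
    set T' := T ∪ N.image (fun x => s(par x, x)) with hT'
    have hle : SimpleGraph.fromEdgeSet (T : Set (Sym2 V)) ≤
        SimpleGraph.fromEdgeSet (T' : Set (Sym2 V)) := by
      apply SimpleGraph.fromEdgeSet_mono
      rw [hT']
      exact_mod_cast Finset.subset_union_left
    refine ⟨T', ?_, ?_, fun x hx => ?_⟩
    · rw [hT']
      apply Finset.union_subset
      · intro e he
        have := mem_ins.mp (hT he)
        exact mem_ins.mpr ⟨this.1, fun x hx => ball_mono F r i (this.2 x hx)⟩
      · intro e he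
        rw [mem_image] at he
        obtain ⟨x, hx, rfl⟩ := he
        refine mem_ins.mpr ⟨hp2 x hx, fun z hz => ?_⟩
        rw [Sym2.mem_iff] at hz
        rcases hz with rfl | rfl
        · exact ball_mono F r i (hp1 x hx)
        · exact (mem_sdiff.mp hx).1
    · have h1 : N.card + (ball F r i).card = (ball F r (i + 1)).card :=
        Finset.card_sdiff_add_card_eq_card (ball_mono F r i)
      have h2 := Finset.card_union_le T (N.image (fun x => s(par x, x)))
      have h3 : (N.image (fun x => s(par x, x))).card ≤ N.card := Finset.card_image_le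
      rw [hT']
      omega
    · by_cases hxi : x ∈ ball F r i
      · obtain ⟨p, hp⟩ := hw x hxi
        exact ⟨p.mapLe hle, by rw [SimpleGraph.Walk.length_map]; omega⟩
      · have hxN : x ∈ N := by rw [hN, mem_sdiff]; exact ⟨hx, hxi⟩
        obtain ⟨p, hp⟩ := hw (par x) (hp1 x hxN)
        have hadj : (SimpleGraph.fromEdgeSet (T' : Set (Sym2 V))).Adj (par x) x := by
          rw [SimpleGraph.fromEdgeSet_adj]
          refine ⟨?_, ?_⟩
          · rw [hT']
            exact_mod_cast Finset.mem_union_right _ (Finset.mem_image_of_mem _ hxN)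
          · intro h
            exact hxi (h ▸ hp1 x hxN)
        refine ⟨(p.mapLe hle).concat hadj, ?_⟩
        rw [SimpleGraph.Walk.length_concat, SimpleGraph.Walk.length_map]
        omega

theorem growth (F : Finset (Sym2 V)) (r : V) (W : Finset V) (hr : r ∈ W)
    (hF : ∀ e ∈ F, ∀ x ∈ e, x ∈ W) :
    ∃ i ≤ Nat.log 2 W.card, (ball F r (i + 1)).card ≤ 2 * (ball F r i).card := by
  by_contra hc
  push Not at hc
  have h1 : ∀ i, i ≤ Nat.log 2 W.card + 1 → 2 ^ i ≤ (ball F r i).card := by
    intro i
    induction i with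
    | zero => intro _; simp [ball]
    | succ i ih =>
      intro hi
      have h2 := ih (by omega)
      have h3 := hc i (by omega)
      rw [pow_succ]
      omega
  have h2 := h1 _ le_rfl
  have h3 := Finset.card_le_card (ball_subset F r W hr hF (Nat.log 2 W.card + 1))
  have h4 : W.card < 2 ^ (Nat.log 2 W.card + 1) := Nat.lt_pow_succ_log_self (by norm_num) _
  omega

theorem bt (F : Finset (Sym2 V)) (W : Finset V) (C : ℕ) (hW : ∀ e ∈ F, ∀ x ∈ e, x ∈ W)
    (h : C * W.card < F.card) :
    ∃ (B : Finset V) (T : Finset (Sym2 V)), B ⊆ W ∧ T ⊆ ins F B ∧ T.card ≤ B.card ∧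
      C * B.card < 4 * (ins F B).card ∧
      ∀ x ∈ B, ∀ y ∈ B, ∃ p : (SimpleGraph.fromEdgeSet (T : Set (Sym2 V))).Walk x y,
        p.length ≤ 2 * (Nat.log 2 W.card + 1) := by
  classical
  have hins : ins F W = F := by
    ext e
    rw [mem_ins]
    exact ⟨fun h => h.1, fun h => ⟨h, hW e h⟩⟩
  obtain ⟨U, hUW, hU1, hU2⟩ := min_deg F W C (by rw [hins]; exact h)
  set F' := ins F U with hF'
  have hUne : U.Nonempty := by
    rw [Finset.nonempty_iff_ne_empty]
    intro h0
    have : 0 < F'.card := by omega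
    obtain ⟨e, he⟩ := Finset.card_pos.mp this
    have h1 := (mem_ins.mp he).2
    rw [h0] at h1
    induction e using Sym2.ind with
    | _ a b => exact absurd (h1 a (Sym2.mem_mk_left a b)) (Finset.notMem_empty a)
  obtain ⟨r, hr⟩ := hUne
  have hF'U : ∀ e ∈ F', ∀ x ∈ e, x ∈ U := fun e he => (mem_ins.mp he).2
  obtain ⟨i, hi, hgr⟩ := growth F' r U hr hF'U
  set B := ball F' r (i + 1) with hB
  set B₀ := ball F' r i with hB₀
  have hBU : B ⊆ U := ball_subset F' r U hr hF'U (i + 1)
  -- edge count
  have hcount : ∑ v ∈ B₀, (F'.filter (fun e => v ∈ e)).card ≤ 2 * (ins F' B).card := by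
    calc ∑ v ∈ B₀, (F'.filter (fun e => v ∈ e)).card
        = ∑ e ∈ F', (B₀.filter (fun v => v ∈ e)).card := by
          simp only [Finset.card_filter]
          exact Finset.sum_comm
      _ = ∑ e ∈ ins F' B, (B₀.filter (fun v => v ∈ e)).card := by
          symm
          apply Finset.sum_subset (ins_subset F' B)
          intro e he hne
          rw [Finset.card_eq_zero, Finset.filter_eq_empty_iff]
          intro v hv hve
          apply hne
          refine mem_ins.mpr ⟨he, fun x hx => ?_⟩
          by_cases hxv : x = v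
          · rw [hxv]; exact ball_mono F' r i hv
          · have : e = s(v, x) := (Sym2.mem_and_mem_iff (Ne.symm hxv)).mp ⟨hve, hx⟩
            exact mem_ball_succ.mpr (Or.inr ⟨v, hv, this ▸ he⟩)
      _ ≤ ∑ _e ∈ ins F' B, 2 := Finset.sum_le_sum fun e _ => card_mem_le_two B₀ e
      _ = 2 * (ins F' B).card := by rw [Finset.sum_const, smul_eq_mul, mul_comm]
  have hdeg : (C + 1) * B₀.card ≤ ∑ v ∈ B₀, (F'.filter (fun e => v ∈ e)).card := by
    calc (C + 1) * B₀.card = ∑ _v ∈ B₀, (C + 1) := by
          rw [Finset.sum_const, smul_eq_mul, mul_comm]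
      _ ≤ _ := Finset.sum_le_sum fun v hv =>
          hU2 v (ball_subset F' r U hr hF'U i hv)
  have hB₀pos : 0 < B₀.card := Finset.card_pos.mpr ⟨r, self_mem_ball F' r i⟩
  have hsub : ins F' B ⊆ ins F B := by
    intro e he
    have := mem_ins.mp he
    exact mem_ins.mpr ⟨(mem_ins.mp this.1).1, this.2⟩
  have hsubc := Finset.card_le_card hsub
  obtain ⟨T, hT1, hT2, hT3⟩ := tree F' r (i + 1)
  refine ⟨B, T, hBU.trans hUW, hT1.trans hsub, hT2, ?_, fun x hx y hy => ?_⟩
  · have e1 : C * B.card ≤ C * (2 * B₀.card) := Nat.mul_le_mul_left _ hgr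
    have e2 : C * (2 * B₀.card) < 2 * ((C + 1) * B₀.card) := by nlinarith
    omega
  · obtain ⟨p, hp⟩ := hT3 x hx
    obtain ⟨q, hq⟩ := hT3 y hy
    refine ⟨p.reverse.append q, ?_⟩
    rw [SimpleGraph.Walk.length_append, SimpleGraph.Walk.length_reverse]
    have : Nat.log 2 U.card ≤ Nat.log 2 W.card := Nat.log_mono_right (Finset.card_le_card hUW)
    omega

end Pool.Agent.HEC.H42
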