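import Pool.Agent.Helper42_HEC.Gad

/-! # Squad HEC (MP_3faef8_co): exact counts.  Every even number. -/

set_option autoImplicit false

namespace Pool.Agent.HEC.H42

open Finset

variable {V : Type} [Fintype V] [DecidableEq V]

/-- many disjoint gadgets -/
theorem fam (U : Finset V) (K : ℕ) : ∀ F : Finset (Sym2 V), (∀ e ∈ F, ∀ x ∈ e, x ∈ U) →
    (∀ e ∈ F, ¬ e.IsDiag) → 40 * U.card + K * (4 * (Nat.log 2 U.card + 1)) < F.card →
    ∃ (Γ : ℕ → Finset (Sym2 V)) (a b : ℕ → ℕ), (∀ i < K, Γ i ⊆ F) ∧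
      (∀ i < K, Gdg (Γ i) (Nat.log 2 U.card + 1) (a i) (b i)) ∧
      ∀ i < K, ∀ j < K, i ≠ j → Disjoint (Γ i) (Γ j) := by
  induction K with
  | zero =>
    intro F _ _ _
    exact ⟨fun _ => ∅, fun _ => 0, fun _ => 0, fun i hi => absurd hi (Nat.not_lt_zero _),
      fun i hi => absurd hi (Nat.not_lt_zero _), fun i hi => absurd hi (Nat.not_lt_zero _)⟩
  | succ K ih =>
    intro F hU hF h
    set ρ := Nat.log 2 U.card + 1 with hρ
    have h0 : (K + 1) * (4 * ρ) = K * (4 * ρ) + 4 * ρ := by ring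
    obtain ⟨Γ₀, hΓ₀, a₀, b₀, g₀⟩ := gad F U hU hF (by omega)
    have hc : (F \ Γ₀).card + Γ₀.card = F.card := Finset.card_sdiff_add_card_eq_card hΓ₀
    have hc0 := g₀.card
    obtain ⟨Γ, a, b, h1, h2, h3⟩ := ih (F \ Γ₀) (fun e he => hU e (mem_sdiff.mp he).1)
      (fun e he => hF e (mem_sdiff.mp he).1) (by omega)
    have hdis : ∀ i < K, Disjoint Γ₀ (Γ i) := by
      intro i hi
      rw [Finset.disjoint_left]
      intro x hx hx'
      exact (mem_sdiff.mp (h1 i hi hx')).2 hx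
    refine ⟨fun n => Nat.casesOn n Γ₀ Γ, fun n => Nat.casesOn n a₀ a, fun n => Nat.casesOn n b₀ b,
      ?_, ?_, ?_⟩
    · intro i hi
      cases i with
      | zero => exact hΓ₀
      | succ i => exact fun x hx => (mem_sdiff.mp (h1 i (by omega) hx)).1
    · intro i hi
      cases i with
      | zero => exact g₀
      | succ i => exact h2 i (by omega)
    · intro i hi j hj hij
      cases i with
      | zero =>
        cases j with
        | zero => exact absurd rfl hij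
        | succ j => exact hdis j (by omega)
      | succ i =>
        cases j with
        | zero => exact (hdis i (by omega)).symm
        | succ j => exact h3 i (by omega) j (by omega) (fun h => hij (by rw [h]))

/-- many disjoint gadgets of one type -/
theorem typ (K ρ : ℕ) (hρ : 1 ≤ ρ) (hK : ρ * ρ * (2 * ρ) ≤ K) (Γ : ℕ → Finset (Sym2 V))
    (a b : ℕ → ℕ) (h : ∀ i < K, Gdg (Γ i) ρ (a i) (b i)) :
    ∃ a₀ b₀ : ℕ, ∃ S ⊆ range K, S.card = 2 * ρ ∧ ∀ i ∈ S, Gdg (Γ i) ρ a₀ b₀ := by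
  classical
  obtain ⟨y, hy, hc⟩ := Finset.exists_le_card_fiber_of_mul_le_card_of_maps_to
    (s := range K) (t := Icc 1 ρ ×ˢ Icc 1 ρ) (f := fun i => (a i, b i)) (n := 2 * ρ)
    (fun i hi => by
      have g := h i (mem_range.mp hi)
      rw [mem_product, mem_Icc, mem_Icc]
      exact ⟨⟨g.ha1, g.ha⟩, ⟨g.hb1, g.hb⟩⟩)
    ⟨(1, 1), by simp [hρ]⟩ (by
      rw [card_product, Nat.card_Icc, card_range]
      simpa using hK)
  obtain ⟨S, hS, hSc⟩ := Finset.exists_subset_card_eq hc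
  refine ⟨y.1, y.2, S, fun i hi => (mem_filter.mp (hS hi)).1, hSc, fun i hi => ?_⟩
  have := mem_filter.mp (hS hi)
  have h2 : (a i, b i) = y := this.2
  rw [← h2]
  exact h i (mem_range.mp this.1)

/-- pairs of gadgets of one type -/
theorem pairs (ρ a b : ℕ) (Γ : ℕ → Finset (Sym2 V)) (k : ℕ) : ∀ S : Finset ℕ, S.card = 2 * k →
    (∀ i ∈ S, Gdg (Γ i) ρ a b) → (∀ i ∈ S, ∀ j ∈ S, i ≠ j → Disjoint (Γ i) (Γ j)) →
    ∀ j ≤ k, Alt (S.biUnion Γ) (2 * k * (a + b - 1) + 2 * j) := by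
  classical
  induction k with
  | zero =>
    intro S hS _ _ j hj
    have : j = 0 := by omega
    subst this
    simpa using Alt.zero (S.biUnion Γ)
  | succ k ih =>
    intro S hS hG hD j hj
    obtain ⟨x, hx⟩ : S.Nonempty := Finset.card_pos.mp (by omega)
    obtain ⟨y, hy⟩ : (S.erase x).Nonempty :=
      Finset.card_pos.mp (by rw [Finset.card_erase_of_mem hx]; omega)
    have hyS : y ∈ S := Finset.mem_of_mem_erase hy
    have hyx : y ≠ x := Finset.ne_of_mem_erase hy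
    set S' := (S.erase x).erase y with hS'
    have hS'c : S'.card = 2 * k := by
      rw [hS', Finset.card_erase_of_mem hy, Finset.card_erase_of_mem hx]; omega
    have hS'S : ∀ i ∈ S', i ∈ S ∧ i ≠ x ∧ i ≠ y := by
      intro i hi
      rw [hS', mem_erase, mem_erase] at hi
      exact ⟨hi.2.2, hi.2.1, hi.1⟩
    have IH := ih S' hS'c (fun i hi => hG i (hS'S i hi).1)
      (fun i hi j hj => hD i (hS'S i hi).1 j (hS'S j hj).1)
    have dx : Disjoint (Γ x) (S'.biUnion Γ) := by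
      rw [Finset.disjoint_biUnion_right]
      intro i hi
      exact hD x hx i (hS'S i hi).1 (hS'S i hi).2.1.symm
    have dy : Disjoint (Γ y) (S'.biUnion Γ) := by
      rw [Finset.disjoint_biUnion_right]
      intro i hi
      exact hD y hyS i (hS'S i hi).1 (hS'S i hi).2.2.symm
    have dxy : Disjoint (Γ x) (Γ y) := hD x hx y hyS hyx.symm
    have sx : Γ x ⊆ S.biUnion Γ := Finset.subset_biUnion_of_mem Γ hx
    have sy : Γ y ⊆ S.biUnion Γ := Finset.subset_biUnion_of_mem Γ hyS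
    have s' : S'.biUnion Γ ⊆ S.biUnion Γ :=
      Finset.biUnion_subset_biUnion_of_subset_left Γ fun i hi => (hS'S i hi).1
    have ha1 := (hG x hx).ha1
    have hb1 := (hG x hx).hb1
    obtain ⟨c, hc⟩ : ∃ c, a + b - 1 = c := ⟨_, rfl⟩
    have hcc : a + b = c + 1 := by omega
    by_cases hjk : j ≤ k
    · have h1 := (hG x hx).alt3.union dx (IH j hjk)
      rw [hc] at h1 ⊢
      have e : 2 * c + (2 * k * c + 2 * j) = 2 * (k + 1) * c + 2 * j := by ring
      rw [e] at h1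
      exact h1.mono (Finset.union_subset sx s')
    · have hj' : j = k + 1 := by omega
      have h1 := ((hG x hx).alt1.union dxy (hG y hyS).alt2).union
        (Finset.disjoint_union_left.mpr ⟨dx, dy⟩) (IH k le_rfl)
      rw [hc] at h1 ⊢
      have e : 2 * a + 2 * b + (2 * k * c + 2 * k) = 2 * (k + 1) * c + 2 * j := by
        rw [hj', ← Nat.mul_add, hcc]; ring
      rw [e] at h1
      exact h1.mono (Finset.union_subset (Finset.union_subset sx sy) s')

/-- greedy filling -/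
theorem fill (U : Finset V) (N : ℕ) : ∀ F : Finset (Sym2 V), (∀ e ∈ F, ∀ x ∈ e, x ∈ U) →
    (∀ e ∈ F, ¬ e.IsDiag) → 40 * U.card + N < F.card →
    ∃ R, R ≤ N ∧ N < R + 2 * (Nat.log 2 U.card + 1) ∧ Even R ∧ Alt F R := by
  induction N using Nat.strong_induction_on with
  | _ N ih =>
    intro F hU hF h
    set ρ := Nat.log 2 U.card + 1 with hρ
    by_cases hN : N < 2 * ρ
    · exact ⟨0, Nat.zero_le _, by omega, Even.zero, Alt.zero F⟩
    · obtain ⟨Γ, hΓ, a, b, g⟩ := gad F U hU hF (by omega)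
      obtain ⟨F₀, hF₀, hc, hA⟩ := g.alt1.tight
      have ha := g.ha
      have ha1 := g.ha1
      have hF₀F : F₀ ⊆ F := hF₀.trans hΓ
      have hcs : (F \ F₀).card + F₀.card = F.card := Finset.card_sdiff_add_card_eq_card hF₀F
      obtain ⟨R, h1, h2, h3, h4⟩ := ih (N - 2 * a) (by omega) (F \ F₀)
        (fun e he => hU e (mem_sdiff.mp he).1) (fun e he => hF e (mem_sdiff.mp he).1) (by omega)
      refine ⟨2 * a + R, by omega, by omega, (even_two_mul a).add h3, ?_⟩
      have := hA.union Finset.disjoint_sdiff h4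
      exact this.mono (Finset.union_subset hF₀F Finset.sdiff_subset)

theorem altExa : AltExa := by
  classical
  intro V _ _ F U D hU hF hD h8 h
  set ρ := Nat.log 2 U.card + 1 with hρ
  have hρ1 : 1 ≤ ρ := by omega
  obtain ⟨Γ, a, b, h1, h2, h3⟩ := fam U (ρ * ρ * (2 * ρ)) F hU hF (by
    have : ρ * ρ * (2 * ρ) * (4 * ρ) = 8 * ρ ^ 4 := by ring
    rw [← hρ, this]
    omega)
  obtain ⟨a₀, b₀, S, hS, hSc, hG⟩ := typ (ρ * ρ * (2 * ρ)) ρ hρ1 le_rfl Γ a b h2
  have hP := pairs ρ a₀ b₀ Γ ρ S hSc hG (fun i hi j hj hij =>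
    h3 i (mem_range.mp (hS hi)) j (mem_range.mp (hS hj)) hij)
  set ΓS := S.biUnion Γ with hΓS
  have hΓSF : ΓS ⊆ F := by
    rw [hΓS, Finset.biUnion_subset]
    exact fun i hi => h1 i (mem_range.mp (hS hi))
  have hΓSc : ΓS.card ≤ 8 * ρ ^ 2 := by
    calc ΓS.card ≤ S.card * (4 * ρ) := Finset.card_biUnion_le_card_mul S Γ (4 * ρ)
          fun i hi => (hG i hi).card
      _ = 8 * ρ ^ 2 := by rw [hSc]; ring
  have hcs : (F \ ΓS).card + ΓS.card = F.card := Finset.card_sdiff_add_card_eq_card hΓSF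
  obtain ⟨i₀, hi₀⟩ : S.Nonempty := Finset.card_pos.mp (by omega)
  have g := hG i₀ hi₀
  have hB : 2 * ρ * (a₀ + b₀ - 1) ≤ 8 * ρ ^ 2 := by
    have e1 : a₀ + b₀ - 1 ≤ 2 * ρ := by
      have := g.ha
      have := g.hb
      omega
    calc 2 * ρ * (a₀ + b₀ - 1) ≤ 2 * ρ * (2 * ρ) := Nat.mul_le_mul_left _ e1
      _ = 4 * ρ ^ 2 := by ring
      _ ≤ 8 * ρ ^ 2 := by omega
  set B := 2 * ρ * (a₀ + b₀ - 1) with hBd
  have hBe : Even B := by
    rw [hBd, mul_assoc]
    exact even_two_mul _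
  obtain ⟨R, r1, r2, r3, r4⟩ := fill U (D - B) (F \ ΓS) (fun e he => hU e (mem_sdiff.mp he).1)
    (fun e he => hF e (mem_sdiff.mp he).1) (by omega)
  rw [← hρ] at r2
  obtain ⟨j, hj⟩ : Even (D - B - R) := by
    obtain ⟨x, hx⟩ := hD
    obtain ⟨y, hy⟩ := hBe
    obtain ⟨z, hz⟩ := r3
    exact ⟨x - y - z, by omega⟩
  have hfin := (hP j (by omega)).union Finset.disjoint_sdiff r4
  have e : B + 2 * j + R = D := by omega
  rw [e] at hfin
  exact hfin.mono (Finset.union_subset hΓSF Finset.sdiff_subset)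

end Pool.Agent.HEC.H42
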