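import Pool.Agent.Helper42_HEC.Ball

/-! # Squad HEC (MP_3faef8_co): exact counts.  Gadgets. -/

set_option autoImplicit false

namespace Pool.Agent.HEC.H42

open Finset

variable {V : Type} [Fintype V] [DecidableEq V]

/-- `e` joins the two sides -/
def Cr (χ : V → Bool) (e : Sym2 V) : Prop := ∃ a b, e = s(a, b) ∧ χ a = true ∧ χ b = false

omit [Fintype V] [DecidableEq V] in
theorem cr_mk (χ : V → Bool) (a b : V) : Cr χ s(a, b) ↔ χ a ≠ χ b := by
  constructor
  · rintro ⟨x, y, h, hx, hy⟩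
    rw [Sym2.eq_iff] at h
    rcases h with ⟨rfl, rfl⟩ | ⟨rfl, rfl⟩
    · rw [hx, hy]; decide
    · rw [hx, hy]; decide
  · intro h
    cases ha : χ a <;> cases hb : χ b
    · exact absurd (ha.trans hb.symm) h
    · exact ⟨b, a, Sym2.eq_swap, hb, ha⟩
    · exact ⟨a, b, rfl, ha, hb⟩
    · exact absurd (ha.trans hb.symm) h

theorem flip_card (a b : V) (hab : a ≠ b) :
    2 * (univ.filter (fun χ : V → Bool => χ a ≠ χ b)).card = Fintype.card (V → Bool) := by
  classical
  have h1 := Finset.card_filter_add_card_filter_not (s := (univ : Finset (V → Bool)))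
    (fun χ : V → Bool => χ a ≠ χ b)
  have h2 : (univ.filter (fun χ : V → Bool => χ a ≠ χ b)).card =
      (univ.filter (fun χ : V → Bool => ¬ χ a ≠ χ b)).card := by
    have m1 : ∀ χ ∈ univ.filter (fun χ : V → Bool => χ a ≠ χ b),
        Function.update χ a (!χ a) ∈ univ.filter (fun χ : V → Bool => ¬ χ a ≠ χ b) := by
      intro χ hχ
      rw [mem_filter] at hχ ⊢
      refine ⟨mem_univ _, ?_⟩
      rw [Function.update_self, Function.update_of_ne hab.symm]
      exact (by decide : ∀ p q : Bool, p ≠ q → ¬ (!p) ≠ q) _ _ hχ.2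
    have m2 : ∀ χ ∈ univ.filter (fun χ : V → Bool => ¬ χ a ≠ χ b),
        Function.update χ a (!χ a) ∈ univ.filter (fun χ : V → Bool => χ a ≠ χ b) := by
      intro χ hχ
      rw [mem_filter] at hχ ⊢
      refine ⟨mem_univ _, ?_⟩
      rw [Function.update_self, Function.update_of_ne hab.symm]
      exact (by decide : ∀ p q : Bool, ¬ p ≠ q → (!p) ≠ q) _ _ hχ.2
    have inv : ∀ χ : V → Bool,
        Function.update (Function.update χ a (!χ a)) a (!(Function.update χ a (!χ a)) a) = χ := by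
      intro χ
      funext x
      by_cases hx : x = a
      · subst hx; simp
      · rw [Function.update_of_ne hx, Function.update_of_ne hx]
    exact Finset.card_bij' (fun χ _ => Function.update χ a (!χ a))
      (fun χ _ => Function.update χ a (!χ a)) m1 m2 (fun χ _ => inv χ) (fun χ _ => inv χ)
  rw [Finset.card_univ] at h1
  omega

open scoped Classical in
theorem cut_half (F : Finset (Sym2 V)) (hF : ∀ e ∈ F, ¬ e.IsDiag) :
    ∃ χ : V → Bool, F.card ≤ 2 * (F.filter (fun e => Cr χ e)).card := by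
  have hN : 0 < Fintype.card (V → Bool) := Fintype.card_pos
  have key : ∑ _χ : V → Bool, F.card ≤ ∑ χ : V → Bool, 2 * (F.filter (fun e => Cr χ e)).card := by
    have e1 : ∑ χ : V → Bool, 2 * (F.filter (fun e => Cr χ e)).card =
        ∑ e ∈ F, 2 * (univ.filter (fun χ : V → Bool => Cr χ e)).card := by
      simp only [Finset.card_filter, Finset.mul_sum]
      exact Finset.sum_comm
    rw [e1, Finset.sum_const, Finset.card_univ, smul_eq_mul, mul_comm]
    rw [← smul_eq_mul, ← Finset.sum_const]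
    apply Finset.sum_le_sum
    intro e he
    have hd := hF e he
    induction e using Sym2.ind with
    | _ a b =>
      rw [Sym2.mk_isDiag_iff] at hd
      rw [← flip_card a b hd]
      apply le_of_eq
      congr 2
      ext χ
      rw [mem_filter, mem_filter, cr_mk]
  obtain ⟨χ, _, h⟩ := Finset.exists_le_of_sum_le ⟨fun _ => true, mem_univ _⟩ key
  exact ⟨χ, h⟩

/-- a gadget -/
structure Gdg (Γ : Finset (Sym2 V)) (ρ a b : ℕ) : Prop where
  card : Γ.card ≤ 4 * ρ
  ha : a ≤ ρ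
  hb : b ≤ ρ
  ha1 : 1 ≤ a
  hb1 : 1 ≤ b
  alt1 : Alt Γ (2 * a)
  alt2 : Alt Γ (2 * b)
  alt3 : Alt Γ (2 * (a + b - 1))

omit [Fintype V] [DecidableEq V] in
theorem mem_of_walk {T : Finset (Sym2 V)} {u v : V}
    (p : (SimpleGraph.fromEdgeSet (T : Set (Sym2 V))).Walk u v) (e : Sym2 V) (he : e ∈ p.edges) :
    e ∈ T := by
  have h := p.edges_subset_edgeSet he
  rw [SimpleGraph.edgeSet_fromEdgeSet] at h
  exact_mod_cast h.1

omit [Fintype V] [DecidableEq V] in
theorem bip_of {T : Finset (Sym2 V)} {χ : V → Bool} (h : ∀ e ∈ T, Cr χ e) :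
    Bip (SimpleGraph.fromEdgeSet (T : Set (Sym2 V))) χ := by
  intro a b hab
  rw [SimpleGraph.fromEdgeSet_adj] at hab
  exact (cr_mk χ a b).mp (h _ (by exact_mod_cast hab.1))

theorem gad (F : Finset (Sym2 V)) (U : Finset V) (hU : ∀ e ∈ F, ∀ x ∈ e, x ∈ U)
    (hF : ∀ e ∈ F, ¬ e.IsDiag) (h : 40 * U.card < F.card) :
    ∃ Γ ⊆ F, ∃ a b : ℕ, Gdg Γ (Nat.log 2 U.card + 1) a b := by
  classical
  obtain ⟨χ, hχ⟩ := cut_half F hF
  set F₁ := F.filter (fun e => Cr χ e) with hF₁
  have hF₁F : F₁ ⊆ F := Finset.filter_subset _ _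
  have hF₁c : ∀ e ∈ F₁, Cr χ e := fun e he => (mem_filter.mp he).2
  obtain ⟨B₁, T₁, hB₁, hT₁, hT₁c, hc₁, hw₁⟩ := bt F₁ U 20 (fun e he => hU e (hF₁F he)) (by omega)
  set F₂ := ins F₁ B₁ \ T₁ with hF₂
  have hF₂c : (ins F₁ B₁).card ≤ F₂.card + T₁.card := by
    rw [hF₂]
    exact (Finset.card_sdiff_add_card_eq_card hT₁).ge
  obtain ⟨B₂, T₂, hB₂, hT₂, hT₂c, hc₂, hw₂⟩ := bt F₂ B₁ 4
    (fun e he => (mem_ins.mp (mem_sdiff.mp he).1).2) (by omega)
  have hex : ∃ e ∈ ins F₂ B₂, e ∉ T₂ := by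
    by_contra hcon
    push Not at hcon
    have := Finset.card_le_card (show ins F₂ B₂ ⊆ T₂ from hcon)
    omega
  obtain ⟨e, he, heT₂⟩ := hex
  have he2 := mem_ins.mp he
  have he1 := mem_sdiff.mp he2.1
  have heF₁ : e ∈ F₁ := (mem_ins.mp he1.1).1
  have heT₁ : e ∉ T₁ := he1.2
  obtain ⟨u, v, hev, hu, hv⟩ := hF₁c e heF₁
  have hT₁F₁ : ∀ x ∈ T₁, x ∈ F₁ := fun x hx => (mem_ins.mp (hT₁ hx)).1
  have hT₂F₂ : ∀ x ∈ T₂, x ∈ F₂ := fun x hx => (mem_ins.mp (hT₂ hx)).1
  have hT₂F₁ : ∀ x ∈ T₂, x ∈ F₁ := fun x hx =>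
    (mem_ins.mp (mem_sdiff.mp (hT₂F₂ x hx)).1).1
  have hT₂T₁ : ∀ x ∈ T₂, x ∉ T₁ := fun x hx => (mem_sdiff.mp (hT₂F₂ x hx)).2
  have huB₂ : u ∈ B₂ := he2.2 u (hev ▸ Sym2.mem_mk_left u v)
  have hvB₂ : v ∈ B₂ := he2.2 v (hev ▸ Sym2.mem_mk_right u v)
  obtain ⟨p₁, hp₁⟩ := hw₁ u (hB₂ huB₂) v (hB₂ hvB₂)
  obtain ⟨p₂, hp₂⟩ := hw₂ u huB₂ v hvB₂
  have hρ : Nat.log 2 B₁.card ≤ Nat.log 2 U.card := Nat.log_mono_right (Finset.card_le_card hB₁)
  set ρ := Nat.log 2 U.card + 1 with hρd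
  -- paths
  have hPp := p₁.bypass_isPath
  have hQp := p₂.bypass_isPath
  have hPl := p₁.length_bypass_le_length
  have hQl := p₂.length_bypass_le_length
  set P := p₁.bypass with hP
  set Q := p₂.bypass with hQ
  have hbip₁ : Bip (SimpleGraph.fromEdgeSet (T₁ : Set (Sym2 V))) χ :=
    bip_of fun x hx => hF₁c x (hT₁F₁ x hx)
  have hbip₂ : Bip (SimpleGraph.fromEdgeSet (T₂ : Set (Sym2 V))) χ :=
    bip_of fun x hx => hF₁c x (hT₂F₁ x hx)
  have hbip₀ : Bip (SimpleGraph.fromEdgeSet (({e} : Finset (Sym2 V)) : Set (Sym2 V))) χ :=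
    bip_of fun x hx => hF₁c x (by rw [mem_singleton.mp hx]; exact heF₁)
  have huv : χ u ≠ χ v := by rw [hu, hv]; decide
  have hne : u ≠ v := fun h => huv (by rw [h])
  have hadj : (SimpleGraph.fromEdgeSet (({e} : Finset (Sym2 V)) : Set (Sym2 V))).Adj u v := by
    rw [SimpleGraph.fromEdgeSet_adj]
    exact ⟨by simp [hev], hne⟩
  let W : (SimpleGraph.fromEdgeSet (({e} : Finset (Sym2 V)) : Set (Sym2 V))).Walk u v :=
    SimpleGraph.Walk.cons hadj SimpleGraph.Walk.nil
  have hWt : W.IsTrail := by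
    rw [SimpleGraph.Walk.isTrail_cons]
    exact ⟨SimpleGraph.Walk.IsTrail.nil, by simp⟩
  have hWl : W.length = 1 := rfl
  have hWe : ∀ x ∈ W.edges, x = e := by
    intro x hx
    have := mem_of_walk W x hx
    exact mem_singleton.mp this
  have hPe : ∀ x ∈ P.edges, x ∈ T₁ := fun x hx => mem_of_walk P x hx
  have hQe : ∀ x ∈ Q.edges, x ∈ T₂ := fun x hx => mem_of_walk Q x hx
  have oP : Odd P.length := (odd_length χ hbip₁ P).mpr huv
  have oQ : Odd Q.length := (odd_length χ hbip₂ Q).mpr huv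
  obtain ⟨a, ha⟩ := oP
  obtain ⟨b, hb⟩ := oQ
  have c1 : P.edges.toFinset.card ≤ 2 * ρ - 1 := by
    refine (List.toFinset_card_le _).trans ?_
    rw [SimpleGraph.Walk.length_edges]
    omega
  have c2 : Q.edges.toFinset.card ≤ 2 * ρ - 1 := by
    refine (List.toFinset_card_le _).trans ?_
    rw [SimpleGraph.Walk.length_edges]
    omega
  refine ⟨{e} ∪ P.edges.toFinset ∪ Q.edges.toFinset, ?_, a + 1, b + 1, ?_⟩
  · intro x hx
    rw [mem_union, mem_union, mem_singleton, List.mem_toFinset, List.mem_toFinset] at hx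
    rcases hx with (hx | hx) | hx
    · rw [hx]; exact hF₁F heF₁
    · exact hF₁F (hT₁F₁ x (hPe x hx))
    · exact hF₁F (hT₂F₁ x (hQe x hx))
  · have aWP := alt_two χ hbip₀ hbip₁ W P hWt hPp.isTrail (fun x hx hx' => by
      rw [hWe x hx] at hx'; exact heT₁ (hPe _ hx'))
    have aWQ := alt_two χ hbip₀ hbip₂ W Q hWt hQp.isTrail (fun x hx hx' => by
      rw [hWe x hx] at hx'; exact heT₂ (hQe _ hx'))
    have aPQ := alt_two χ hbip₁ hbip₂ P Q hPp.isTrail hQp.isTrail (fun x hx hx' =>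
      hT₂T₁ x (hQe x hx') (hPe x hx))
    have hWs : W.edges.toFinset ⊆ {e} := by
      intro x hx
      rw [List.mem_toFinset] at hx
      rw [mem_singleton]
      exact hWe x hx
    refine ⟨?_, by omega, by omega, by omega, by omega, ?_, ?_, ?_⟩
    · have h1 := Finset.card_union_le ({e} ∪ P.edges.toFinset) Q.edges.toFinset
      have h2 := Finset.card_union_le ({e} : Finset (Sym2 V)) P.edges.toFinset
      rw [card_singleton] at h2
      omega
    · have : 2 * (a + 1) = W.length + P.length := by rw [hWl, ha]; ring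
      rw [this]
      refine aWP.mono ?_
      intro x hx
      rw [mem_union] at hx
      rw [mem_union, mem_union]
      rcases hx with hx | hx
      · exact Or.inl (Or.inl (hWs hx))
      · exact Or.inl (Or.inr hx)
    · have : 2 * (b + 1) = W.length + Q.length := by rw [hWl, hb]; ring
      rw [this]
      refine aWQ.mono ?_
      intro x hx
      rw [mem_union] at hx
      rw [mem_union, mem_union]
      rcases hx with hx | hx
      · exact Or.inl (Or.inl (hWs hx))
      · exact Or.inr hx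
    · have : 2 * (a + 1 + (b + 1) - 1) = P.length + Q.length := by omega
      rw [this]
      refine aPQ.mono ?_
      intro x hx
      rw [mem_union] at hx
      rw [mem_union, mem_union]
      rcases hx with hx | hx
      · exact Or.inl (Or.inr hx)
      · exact Or.inr hx

end Pool.Agent.HEC.H42
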