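import Pool.Agent.HEC.Stmts

/-! # Squad HEC, row MST: a cheap spanning tree. -/

set_option autoImplicit false

namespace Pool.Agent.HEC.H42

open Finset

/-- the edge `e` crosses `S` -/
def Cx {V E : Type} (s t : E → V) (S : Finset V) (e : E) : Prop :=
  (s e ∈ S ∧ t e ∉ S) ∨ (s e ∉ S ∧ t e ∈ S)

instance {V E : Type} [DecidableEq V] (s t : E → V) (S : Finset V) : DecidablePred (Cx s t S) :=
  fun e => inferInstanceAs (Decidable ((s e ∈ S ∧ t e ∉ S) ∨ (s e ∉ S ∧ t e ∈ S)))

/-- every cut has weight at least `lam` -/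
def Cuts {V E : Type} [Fintype V] [DecidableEq V] [Fintype E] (s t : E → V) (κ : E → ℝ)
    (lam : ℝ) : Prop :=
  ∀ S : Finset V, S.Nonempty → S ≠ univ → lam ≤ ∑ e ∈ univ.filter (Cx s t S), κ e

section

variable {V E : Type} [Fintype V] [DecidableEq V] [Fintype E] [DecidableEq E] (s t : E → V)
  (κ : E → ℝ) (lam : ℝ)

/-- edges between different fibres -/
def XX (π : V → V) : Finset E := univ.filter (fun e => π (s e) ≠ π (t e))

omit [Fintype V] [DecidableEq E] in
theorem mem_XX (π : V → V) (e : E) : e ∈ XX s t π ↔ π (s e) ≠ π (t e) := by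
  simp [XX]

omit [DecidableEq E] in
theorem fib_sum (hκ : ∀ e, 0 ≤ κ e) (hC : Cuts s t κ lam) (π : V → V) (n : ℕ)
    (hn : (univ.image π).card = n + 2) :
    lam * ((n : ℝ) + 2) ≤ 2 * ∑ e ∈ XX s t π, κ e := by
  have h1 : ∀ a ∈ univ.image π,
      lam ≤ ∑ e ∈ univ.filter (Cx s t (univ.filter (fun x => π x = a))), κ e := by
    intro a ha
    apply hC
    · rw [mem_image] at ha
      obtain ⟨x, _, hx⟩ := ha
      exact ⟨x, by simp [hx]⟩
    · intro h
      have h2 : univ.image π ⊆ {a} := by
        intro b hb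
        rw [mem_image] at hb
        obtain ⟨x, _, rfl⟩ := hb
        have : x ∈ univ.filter (fun x => π x = a) := by rw [h]; exact mem_univ x
        rw [mem_singleton]
        exact (mem_filter.mp this).2
      have h3 := Finset.card_le_card h2
      rw [hn, card_singleton] at h3
      omega
  have h2 : ∑ _a ∈ univ.image π, lam ≤ ∑ a ∈ univ.image π,
      ∑ e ∈ univ.filter (Cx s t (univ.filter (fun x => π x = a))), κ e :=
    Finset.sum_le_sum h1
  rw [Finset.sum_const, hn, nsmul_eq_mul] at h2
  have h3 : ∑ a ∈ univ.image π,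
      ∑ e ∈ univ.filter (Cx s t (univ.filter (fun x => π x = a))), κ e ≤
      2 * ∑ e ∈ XX s t π, κ e := by
    have e1 : ∑ a ∈ univ.image π,
        ∑ e ∈ univ.filter (Cx s t (univ.filter (fun x => π x = a))), κ e =
        ∑ e : E, ∑ a ∈ univ.image π,
          (if Cx s t (univ.filter (fun x => π x = a)) e then κ e else 0) := by
      rw [Finset.sum_comm]
      refine Finset.sum_congr rfl fun a _ => ?_
      rw [Finset.sum_filter]
    rw [e1, Finset.mul_sum, XX, Finset.sum_filter]
    apply Finset.sum_le_sum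
    intro e _
    rw [← Finset.sum_filter, Finset.sum_const, nsmul_eq_mul]
    by_cases he : π (s e) ≠ π (t e)
    · rw [if_pos he]
      apply mul_le_mul_of_nonneg_right _ (hκ e)
      have h4 : (univ.image π).filter (fun a => Cx s t (univ.filter (fun x => π x = a)) e) ⊆
          {π (s e), π (t e)} := by
        intro a ha
        rw [mem_filter] at ha
        rw [mem_insert, mem_singleton]
        rcases ha.2 with ⟨h, _⟩ | ⟨_, h⟩
        · exact Or.inl (mem_filter.mp h).2.symm
        · exact Or.inr (mem_filter.mp h).2.symm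
      have h5 : ((univ.image π).filter
          (fun a => Cx s t (univ.filter (fun x => π x = a)) e)).card ≤ 2 :=
        (Finset.card_le_card h4).trans Finset.card_le_two
      exact_mod_cast h5
    · rw [if_neg he]
      have h4 : (univ.image π).filter (fun a => Cx s t (univ.filter (fun x => π x = a)) e) = ∅ := by
        rw [Finset.filter_eq_empty_iff]
        intro a _ ha
        apply he
        rcases ha with ⟨h, h'⟩ | ⟨h', h⟩
        · intro h6
          apply h'
          rw [mem_filter] at h ⊢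
          exact ⟨mem_univ _, h6 ▸ h.2⟩
        · intro h6
          apply h'
          rw [mem_filter] at h ⊢
          exact ⟨mem_univ _, h6 ▸ h.2⟩
      rw [h4, card_empty]
      simp
  calc lam * ((n : ℝ) + 2) = ((n + 2 : ℕ) : ℝ) * lam := by push_cast; ring
    _ ≤ _ := h2
    _ ≤ _ := h3

theorem aux (hl : 0 < lam) (hκ : ∀ e, 0 ≤ κ e) (hC : Cuts s t κ lam) (n : ℕ) :
    ∀ (π : V → V) (w : E → ℝ), (∀ e, 0 ≤ w e) → (univ.image π).card = n + 1 →
      ∃ T : Finset E, T ⊆ XX s t π ∧ T.card = n ∧
        (∀ S : Finset V, S.Nonempty → S ≠ univ → (∀ x ∈ S, ∀ y, π y = π x → y ∈ S) →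
          ∃ e ∈ T, Cx s t S e) ∧
        lam * ((n : ℝ) + 1) * ∑ e ∈ T, w e ≤ 2 * (n : ℝ) * ∑ e ∈ XX s t π, κ e * w e := by
  induction n with
  | zero =>
    intro π w _ hn
    refine ⟨∅, Finset.empty_subset _, rfl, fun S hS hS' hsat => ?_, by simp⟩
    exfalso
    apply hS'
    obtain ⟨x, hx⟩ := hS
    obtain ⟨a, ha⟩ := Finset.card_eq_one.mp hn
    have hc : ∀ y, π y = a := fun y => by
      have : π y ∈ univ.image π := mem_image_of_mem _ (mem_univ y)
      rw [ha] at this
      exact mem_singleton.mp this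
    rw [Finset.eq_univ_iff_forall]
    intro y
    exact hsat x hx y ((hc y).trans (hc x).symm)
  | succ n ih =>
    intro π w hw hn
    have hfib := fib_sum s t κ lam hκ hC π n hn
    have hXne : (XX s t π).Nonempty := by
      rw [Finset.nonempty_iff_ne_empty]
      intro h0
      rw [h0, Finset.sum_empty, mul_zero] at hfib
      have : 0 < lam * ((n : ℝ) + 2) := by positivity
      linarith
    obtain ⟨e₀, he₀, hmin⟩ := Finset.exists_min_image _ w hXne
    have he₀' := (mem_XX s t π e₀).mp he₀
    set a := π (s e₀) with ha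
    set b := π (t e₀) with hb
    let π' : V → V := fun x => if π x = b then a else π x
    have hπ'b : ∀ x, π x = b → π' x = a := fun x hx => if_pos hx
    have hπ'n : ∀ x, π x ≠ b → π' x = π x := fun x hx => if_neg hx
    have himg : univ.image π' = (univ.image π).erase b := by
      ext y
      rw [mem_image, mem_erase, mem_image]
      constructor
      · rintro ⟨x, _, rfl⟩
        by_cases hx : π x = b
        · rw [hπ'b x hx]
          exact ⟨he₀', s e₀, mem_univ _, rfl⟩
        · rw [hπ'n x hx]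
          exact ⟨hx, x, mem_univ _, rfl⟩
      · rintro ⟨hy, x, _, rfl⟩
        exact ⟨x, mem_univ _, hπ'n x hy⟩
    have hcard : (univ.image π').card = n + 1 := by
      rw [himg, Finset.card_erase_of_mem (mem_image_of_mem _ (mem_univ _)), hn]
      rfl
    let w' : E → ℝ := fun e => if e ∈ XX s t π then w e - w e₀ else w e
    have hw'X : ∀ e ∈ XX s t π, w' e = w e - w e₀ := fun e he => if_pos he
    have hw' : ∀ e, 0 ≤ w' e := by
      intro e
      by_cases he : e ∈ XX s t π
      · rw [hw'X e he]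
        linarith [hmin e he]
      · have : w' e = w e := if_neg he
        rw [this]; exact hw e
    obtain ⟨T', hT1, hT2, hT3, hT4⟩ := ih π' w' hw' hcard
    have hXX : XX s t π' ⊆ XX s t π := by
      intro e he
      rw [mem_XX] at he ⊢
      intro h
      apply he
      change (if π (s e) = b then a else π (s e)) = (if π (t e) = b then a else π (t e))
      rw [h]
    have he₀T : e₀ ∉ T' := by
      intro h
      have h1 := (mem_XX s t π' e₀).mp (hT1 h)
      apply h1
      rw [hπ'n (s e₀) he₀', hπ'b (t e₀) rfl]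
    refine ⟨insert e₀ T', ?_, ?_, ?_, ?_⟩
    · exact Finset.insert_subset he₀ (hT1.trans hXX)
    · rw [Finset.card_insert_of_notMem he₀T, hT2]
    · intro S hS hS' hsat
      by_cases hc : Cx s t S e₀
      · exact ⟨e₀, Finset.mem_insert_self _ _, hc⟩
      · have hst : s e₀ ∈ S ↔ t e₀ ∈ S := by
          unfold Cx at hc
          tauto
        obtain ⟨e, he, hce⟩ := hT3 S hS hS' (by
          intro x hx y hxy
          by_cases hxb : π x = b
          · have h1 : t e₀ ∈ S := hsat x hx (t e₀) hxb.symm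
            by_cases hyb : π y = b
            · exact hsat x hx y (hyb.trans hxb.symm)
            · rw [hπ'b x hxb, hπ'n y hyb] at hxy
              exact hsat (s e₀) (hst.mpr h1) y hxy
          · by_cases hyb : π y = b
            · rw [hπ'n x hxb, hπ'b y hyb] at hxy
              have h1 : s e₀ ∈ S := hsat x hx (s e₀) hxy
              exact hsat (t e₀) (hst.mp h1) y hyb
            · rw [hπ'n x hxb, hπ'n y hyb] at hxy
              exact hsat x hx y hxy)
        exact ⟨e, Finset.mem_insert_of_mem he, hce⟩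
    · -- weights
      set A := ∑ e ∈ T', w' e with hA
      set K := ∑ e ∈ XX s t π, κ e * w' e with hK
      set Q := ∑ e ∈ XX s t π, κ e with hQ
      have s1 : ∑ e ∈ insert e₀ T', w e = A + ((n : ℝ) + 1) * w e₀ := by
        rw [Finset.sum_insert he₀T]
        have : ∑ e ∈ T', w e = ∑ e ∈ T', (w' e + w e₀) := by
          refine Finset.sum_congr rfl fun e he => ?_
          rw [hw'X e (hXX (hT1 he))]
          ring
        rw [this, Finset.sum_add_distrib, Finset.sum_const, hT2, nsmul_eq_mul]
        ring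
      have s2 : ∑ e ∈ XX s t π, κ e * w e = K + w e₀ * Q := by
        rw [hK, hQ, Finset.mul_sum, ← Finset.sum_add_distrib]
        refine Finset.sum_congr rfl fun e he => ?_
        rw [hw'X e he]
        ring
      have s3 : ∑ e ∈ XX s t π', κ e * w' e ≤ K :=
        Finset.sum_le_sum_of_subset_of_nonneg hXX fun e _ _ => mul_nonneg (hκ e) (hw' e)
      have hK0 : 0 ≤ K := Finset.sum_nonneg fun e _ => mul_nonneg (hκ e) (hw' e)
      have hn0 : (0 : ℝ) ≤ n := Nat.cast_nonneg n
      have s4 : lam * ((n : ℝ) + 1) * A ≤ 2 * n * K :=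
        hT4.trans (mul_le_mul_of_nonneg_left s3 (by positivity))
      have s5 : lam * ((n : ℝ) + 2) * A ≤ 2 * ((n : ℝ) + 1) * K := by
        have h1 : ((n : ℝ) + 1) * (lam * ((n : ℝ) + 2) * A) ≤
            ((n : ℝ) + 1) * (2 * ((n : ℝ) + 1) * K) := by
          calc ((n : ℝ) + 1) * (lam * ((n : ℝ) + 2) * A) =
                ((n : ℝ) + 2) * (lam * ((n : ℝ) + 1) * A) := by ring
            _ ≤ ((n : ℝ) + 2) * (2 * n * K) := mul_le_mul_of_nonneg_left s4 (by positivity)
            _ ≤ ((n : ℝ) + 1) * (2 * ((n : ℝ) + 1) * K) := by nlinarith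
        exact le_of_mul_le_mul_left h1 (by positivity)
      have s6 : w e₀ * (lam * ((n : ℝ) + 2)) ≤ w e₀ * (2 * Q) :=
        mul_le_mul_of_nonneg_left hfib (hw e₀)
      have s7 : ((n : ℝ) + 1) * (w e₀ * (lam * ((n : ℝ) + 2))) ≤
          ((n : ℝ) + 1) * (w e₀ * (2 * Q)) := mul_le_mul_of_nonneg_left s6 (by positivity)
      rw [s1, s2]
      push_cast
      calc lam * ((n : ℝ) + 1 + 1) * (A + ((n : ℝ) + 1) * w e₀)
          = lam * ((n : ℝ) + 2) * A + ((n : ℝ) + 1) * (w e₀ * (lam * ((n : ℝ) + 2))) := by ring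
        _ ≤ 2 * ((n : ℝ) + 1) * K + ((n : ℝ) + 1) * (w e₀ * (2 * Q)) := add_le_add s5 s7
        _ = 2 * ((n : ℝ) + 1) * (K + w e₀ * Q) := by ring

end

theorem mst : MstStmt := by
  classical
  intro V E _ _ hV s t k w lam hl hk hw hC
  have hpos : 0 < Fintype.card V := Fintype.card_pos_iff.mpr hV
  obtain ⟨n, hn⟩ : ∃ n, Fintype.card V = n + 1 := ⟨Fintype.card V - 1, by omega⟩
  have hC' : Cuts s t k lam := by
    intro S hS hS'
    refine (hC S hS hS').trans (le_of_eq ?_)
    unfold mcut
    rw [Finset.sum_filter]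
    refine Finset.sum_congr rfl fun e _ => ?_
    by_cases h : Cx s t S e
    · rw [if_pos h]
      exact if_pos h
    · rw [if_neg h]
      exact if_neg h
  obtain ⟨T, hT1, hT2, hT3, hT4⟩ := aux s t k lam hl hk hC' n (fun x => x) w hw (by
    rw [Finset.image_id', Finset.card_univ, hn])
  refine ⟨T, fun e he => (mem_XX s t (fun x => x) e).mp (hT1 he), by rw [hT2, hn], ?_, ?_⟩
  · intro p hp u v
    by_contra hne
    obtain ⟨e, he, hc⟩ := hT3 (univ.filter (fun x => p x = p u)) ⟨u, by simp⟩
      (fun h => by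
        have h1 : v ∈ univ.filter (fun x => p x = p u) := by rw [h]; exact mem_univ v
        exact hne (mem_filter.mp h1).2.symm)
      (fun x hx y hy => by
        have : y = x := hy
        rw [this]; exact hx)
    have h2 := hp e he
    rcases hc with ⟨h, h'⟩ | ⟨h', h⟩
    · exact h' (mem_filter.mpr ⟨mem_univ _, h2.symm.trans (mem_filter.mp h).2⟩)
    · exact h' (mem_filter.mpr ⟨mem_univ _, h2.trans (mem_filter.mp h).2⟩)
  · have hn0 : (0 : ℝ) ≤ n := Nat.cast_nonneg n
    have h1 : ∑ e ∈ XX s t (fun x => x), k e * w e ≤ ∑ e, k e * w e :=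
      Finset.sum_le_sum_of_subset_of_nonneg (Finset.subset_univ _)
        fun e _ _ => mul_nonneg (hk e) (hw e)
    have h0 : 0 ≤ ∑ e, k e * w e := Finset.sum_nonneg fun e _ => mul_nonneg (hk e) (hw e)
    have h2 : ((n : ℝ) + 1) * (lam * ∑ e ∈ T, w e) ≤ ((n : ℝ) + 1) * (2 * ∑ e, k e * w e) := by
      calc ((n : ℝ) + 1) * (lam * ∑ e ∈ T, w e) = lam * ((n : ℝ) + 1) * ∑ e ∈ T, w e := by ring
        _ ≤ 2 * (n : ℝ) * ∑ e ∈ XX s t (fun x => x), k e * w e := hT4
        _ ≤ 2 * (n : ℝ) * ∑ e, k e * w e := mul_le_mul_of_nonneg_left h1 (by positivity)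
        _ ≤ ((n : ℝ) + 1) * (2 * ∑ e, k e * w e) := by nlinarith
    exact le_of_mul_le_mul_left h2 (by positivity)

end Pool.Agent.HEC.H42
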